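import Pool.Agent.H78.PI5

namespace Pool.Agent.Results.MP_f7573e_al.Counter

open Pool.Agent.H78.PI

/-- A ring satisfying an identity of degree 5 with coprime coefficients all of whose multilinear
identities of degree 5 have only even coefficients. -/
theorem result : ∃ (R : Type) (_ : NonUnitalRing R) (f : Pol), f ≠ 0 ∧ HasDegree f 5 ∧
    CoprimeCoeffs f ∧ Satisfies R f ∧ ∀ α : Equiv.Perm (Fin 5) → ℤ,
      (∀ r : Fin 5 → R, ∑ σ, α σ • (r (σ 0) * r (σ 1) * r (σ 2) * r (σ 3) * r (σ 4)) = 0) →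
      ∀ σ, Even (α σ) :=
  main

end Pool.Agent.Results.MP_f7573e_al.Counter
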